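import Pool.Agent.Helper43.Gx.Goals
import Pool.Agent.Helper43.Gm.RS
import Pool.Agent.Helper18.Tw.Pen

/-! Nine free points, cubic. -/

set_option autoImplicit false

namespace Pool.Agent.Helper43.Gx.PkX10

open Finset Pool.Agent.Lead.Sh
open Pool.Agent.Helper43.Ah (Good)
open Helper18.Cusp

/-- lower bound for the sum of the heights -/
theorem sum_low {f : ℕ → ℕ} {w κ T N : ℕ} (hT : T ≤ N) (hw : w ≤ T) (h1 : ∀ b < w, f b = κ)
    (h2 : ∀ b, w ≤ b → b < T → T ≤ f b + b + 1) :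
    2 * (w * κ) + (T - w) * (T - w - 1) ≤ 2 * ∑ b ∈ range N, f b := by
  have e1 : ∑ b ∈ range T, f b ≤ ∑ b ∈ range N, f b :=
    sum_le_sum_of_subset (range_subset_range.2 hT)
  have e2 : ∑ b ∈ range T, f b = ∑ b ∈ range w, f b + ∑ i ∈ range (T - w), f (w + i) := by
    rw [← sum_range_add, Nat.add_sub_cancel' hw]
  have e3 : ∑ b ∈ range w, f b = w * κ := by
    rw [sum_congr rfl (fun b hb => h1 b (mem_range.1 hb)), sum_const, card_range, smul_eq_mul]
  have e4 : ∑ i ∈ range (T - w), (T - w - 1 - i) ≤ ∑ i ∈ range (T - w), f (w + i) := by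
    refine sum_le_sum fun i hi => ?_
    rw [mem_range] at hi
    have := h2 (w + i) (by omega) (by omega)
    omega
  have e5 : ∑ i ∈ range (T - w), (T - w - 1 - i) = ∑ i ∈ range (T - w), i :=
    sum_range_reflect (fun i => i) (T - w)
  have e6 := sum_range_id_mul_two (T - w)
  omega

variable {n : ℕ} {a : ℕ → ℕ}

/-- the heights are at least linear at the end -/
theorem rr_lin (h : Red n a) : ∀ (t b : ℕ), a 8 ≤ b → b + t + 1 = HS n a 0 → t ≤ rr n a b := by
  intro t
  induction t with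
  | zero => intro b _ _; exact Nat.zero_le _
  | succ t ih =>
    intro b hb hbt
    have h1 := ih (b + 1) (by omega) (by omega)
    have h2 : 0 < rr n a (b + 1) := (lt_HS h).1 (by omega)
    rcases rr_strict h hb h2 with h3 | ⟨h3, h4, h5⟩
    · omega
    · have h6 : rr n a (b + 1 + 1) = 0 := rr_zero (by omega)
      have h7 : ¬ b + 1 + 1 < HS n a 0 := fun h8 => by
        have := (lt_HS h).1 h8
        omega
      omega

/-- a row far from the wall -/
theorem rr_far (hR : Red n a) {j : ℕ} (h1 : 2 * j + 1 ≤ n - a 0) (h2 : 3 * j + 1 ≤ n) :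
    kap n a ≤ rr n a j + 9 * j := by
  rcases Nat.lt_or_ge j (a 8) with h8 | h8
  · rw [rr_wall hR h8]
    omega
  · have := Pool.Agent.Helper43.Gm.PkRS.rr_slow9 hR h1 h2 h8
    omega

theorem arith {M κ w T S : ℕ} (hM : 2 ≤ M) (hκ : 260 * M ^ 2 ≤ κ) (hw : M ≤ w) (hwT : w ≤ T)
    (hT : 28 * M ^ 2 + 1 ≤ T) (hS : 2 * (w * κ) + (T - w) * (T - w - 1) ≤ 2 * S) :
    M * (3 * M + 1) * (T + 1) + (M + 1).choose 2 ≤ S := by
  have hc := two_choose_nat M
  obtain ⟨D, rfl⟩ : ∃ D, T = w + D := ⟨T - w, by omega⟩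
  rw [Nat.add_sub_cancel_left] at hS
  have h1 : w * (260 * M ^ 2) ≤ w * κ := Nat.mul_le_mul_left _ hκ
  set q := M ^ 2 with hq
  have e1 : M * (3 * M + 1) = 3 * q + M := by rw [hq]; ring
  have e2 : M * (M + 1) = q + M := by rw [hq]; ring
  have h2 : 2 * M ≤ q := by rw [hq]; nlinarith
  rw [e1]
  rw [e2] at hc
  have h3 : 2 * ((3 * q + M) * (w + D + 1)) ≤ 7 * q * (w + D + 1) := by nlinarith
  rcases Nat.lt_or_ge D (9 * q + 1) with hD | hD
  · have h4 : 19 * q + 1 ≤ w := by omega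
    have h5 : q * D ≤ q * (9 * q) := Nat.mul_le_mul_left _ (by omega)
    have h6 : q * (19 * q + 1) ≤ q * w := Nat.mul_le_mul_left _ h4
    have h7 : 2 ≤ q := by omega
    nlinarith
  · obtain ⟨D', rfl⟩ : ∃ D', D = D' + 1 := ⟨D - 1, by omega⟩
    rw [Nat.add_sub_cancel] at hS
    have h5 : (D' + 1) * (9 * q) ≤ (D' + 1) * D' := Nat.mul_le_mul_left _ (by omega)
    have h6 : q * 2 ≤ q * w := Nat.mul_le_mul_left _ (by omega)
    nlinarith

theorem goalX10 (h8 : GoalX8) : GoalX10 := by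
  intro s m d hm hs hd h9 hsum hd0
  have hlt : ∑ i ∈ range 9, m i < 3 * d := by
    have : 1 ≤ m 9 ^ 2 := Nat.one_le_pow _ _ (by omega)
    omega
  obtain ⟨hsum', hR⟩ := red_tr hm hd (j := 9) (by norm_num) le_rfl hlt
  refine cubic_finish s m d 9 hm hs le_rfl hR ?_
  apply GoodFor.swap
  have e8 : tr m 9 8 = m 8 := tr_lt (by norm_num)
  have e0 : tr m 9 0 = m 0 := tr_lt (by norm_num)
  have hkap : kap d (tr m 9) = 3 * d - ∑ i ∈ range 9, m i := by rw [kap, hsum']
  set M := m 9 with hM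
  set κ := kap d (tr m 9) with hκ
  have hq1 : 2 * M ≤ M ^ 2 := by nlinarith
  have hκ' : 260 * M ^ 2 ≤ κ := by omega
  have hw : M ≤ m 8 := hm (by norm_num)
  have hch := two_choose_nat M
  have hch' : (M + 1).choose 2 ≤ M ^ 2 := by nlinarith
  have hfar : ∀ j, 2 * j + 1 ≤ 57 * M ^ 2 → κ ≤ rr d (tr m 9) j + 9 * j := by
    intro j hj
    refine rr_far hR ?_ ?_
    · rw [e0]
      omega
    · omega
  have hT28 : ∀ y ≤ 2 * M, (26 + 2) * M ^ 2 + 1 ≤ HS d (tr m 9) y := by
    intro y hy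
    have h1 := hfar (28 * M ^ 2) (by omega)
    rw [show (26 + 2) * M ^ 2 = 28 * M ^ 2 by norm_num]
    exact (lt_HS hR).2 (by omega)
  have hT2 : ∀ y ≤ (M + 1).choose 2, 2 * M + 2 ≤ HS d (tr m 9) y := by
    intro y hy
    have h1 := hfar (2 * M + 1) (by omega)
    exact (lt_HS hR).2 (by omega)
  have hwT : m 8 ≤ HS d (tr m 9) 0 := by
    have := HS_wall hR (x := 0) (by omega)
    rwa [e8] at this
  have hcard : ((DS d (tr m 9) (d + 1)).image Prod.swap).card =
      ∑ b ∈ range (d + 1), rr d (tr m 9) b := by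
    rw [card_image_of_injective _ Prod.swap_injective, card_DS_aux]
  have hgood : Good M ((DS d (tr m 9) (d + 1)).image Prod.swap) := by
    refine h8 M 2 κ (HS d (tr m 9)) _ (by omega) (fun c => swap_DS hR (by omega) c) (by omega)
      (by omega) (fun y _ => HS_anti _ _ (Nat.le_succ y)) (fun y hy => ?_) hT28 hT2
      (fun y hy => ?_) ?_
    · right
      have := HS_wall hR hy
      rw [e8] at this
      omega
    · have h1 := HS_drop hR (x := y) (by omega)
      have h2 := HS_anti d (tr m 9) (Nat.le_succ (y + 1))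
      have h3 : HS d (tr m 9) (y + 2) ≤ HS d (tr m 9) (y + 1) := h2
      omega
    · rw [hcard]
      refine arith h9 hκ' hw hwT (hT28 0 (Nat.zero_le _)) ?_
      refine sum_low ?_ hwT (fun b hb => rr_wall hR (by rw [e8]; exact hb)) (fun b hb hbT => ?_)
      · unfold HS
        refine (card_filter_le _ _).trans ?_
        rw [card_range]
      · have := rr_lin hR (HS d (tr m 9) 0 - 1 - b) b (by rw [e8]; exact hb) (by omega)
        omega
  exact hgood (Ico 9 s) m (fun k hk => hm (mem_Ico.1 hk).1)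

end Pool.Agent.Helper43.Gx.PkX10
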